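import Pool.Agent.P8H29.UI.Stm

/-!
# Project UI: a lower bound for the energy of a finite set with a hierarchy of partitions
-/

set_option autoImplicit false

namespace Pool.Agent.P8H52.UI

open Pool.Agent.P8H29.UI Finset

universe u

lemma split_classes {α : Type*} (P : Finset α) (m : ℕ) (u : α → ℝ) (cl : α → Fin m)
    (H : α → α → ℝ) :
    ∑ x ∈ P, ∑ y ∈ P, u x * u y * (if cl x = cl y then H x y else 0) =
      ∑ i : Fin m, ∑ x ∈ P, ∑ y ∈ P,
        (if cl x = i then u x else 0) * (if cl y = i then u y else 0) * H x y := by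
  symm
  rw [Finset.sum_comm]
  refine Finset.sum_congr rfl fun x _ => ?_
  rw [Finset.sum_comm]
  refine Finset.sum_congr rfl fun y _ => ?_
  rw [Finset.sum_eq_single (cl x)]
  · by_cases h : cl x = cl y
    · simp [h]
    · have h' : ¬ cl y = cl x := fun h1 => h h1.symm
      simp [h, h']
  · intro i _ hi
    rw [if_neg (Ne.symm hi), zero_mul, zero_mul]
  · intro h
    exact absurd (Finset.mem_univ _) h

/-- the sequence of the lower bounds -/
noncomputable def rr (m : ℕ) (Q A : ℝ) : ℕ → ℝ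
  | 0 => 0
  | L + 1 => (A * (1 - 1 / Q) + rr m Q A L / Q) / m

lemma eng_aux {α : Type*} (P : Finset α) (m : ℕ) (Q A : ℝ) (cl : ℕ → α → Fin m)
    (G : ℕ → α → α → ℝ) (hm : 1 ≤ m) (hQ : 2 ≤ Q) (hA : 0 ≤ A)
    (h0 : ∀ j, ∀ x ∈ P, ∀ y ∈ P, 0 ≤ G j x y)
    (hG : ∀ j, ∀ x ∈ P, ∀ y ∈ P, G j x y =
      if cl j x = cl j y then A * (1 - 1 / Q) + G (j + 1) x y / Q else 0) (L : ℕ) :
    ∀ (j : ℕ) (u : α → ℝ), (∀ x, 0 ≤ u x) →
      rr m Q A L * (∑ x ∈ P, u x) ^ 2 ≤ ∑ x ∈ P, ∑ y ∈ P, u x * u y * G j x y := by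
  have hm0 : (0 : ℝ) < m := by exact_mod_cast hm
  have hQ0 : (0 : ℝ) < Q := by linarith
  have hb : 0 ≤ A * (1 - 1 / Q) := by
    apply mul_nonneg hA
    rw [sub_nonneg, div_le_one hQ0]
    linarith
  have hr0 : ∀ L, 0 ≤ rr m Q A L := by
    intro L
    induction L with
    | zero => exact le_rfl
    | succ L ih => exact div_nonneg (add_nonneg hb (div_nonneg ih hQ0.le)) hm0.le
  induction L with
  | zero =>
    intro j u hu
    rw [show rr m Q A 0 = 0 from rfl, zero_mul]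
    exact Finset.sum_nonneg fun x hx => Finset.sum_nonneg fun y hy =>
      mul_nonneg (mul_nonneg (hu x) (hu y)) (h0 j x hx y hy)
  | succ L ih =>
    intro j u hu
    set w : Fin m → α → ℝ := fun i x => if cl j x = i then u x else 0 with hw
    have hw0 : ∀ i x, 0 ≤ w i x := by
      intro i x
      simp only [hw]
      split_ifs
      · exact hu x
      · exact le_rfl
    have h1 : ∑ x ∈ P, ∑ y ∈ P, u x * u y * G j x y =
        ∑ i : Fin m, ∑ x ∈ P, ∑ y ∈ P,
          w i x * w i y * (A * (1 - 1 / Q) + G (j + 1) x y / Q) := by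
      rw [← split_classes P m u (cl j) (fun x y => A * (1 - 1 / Q) + G (j + 1) x y / Q)]
      refine Finset.sum_congr rfl fun x hx => Finset.sum_congr rfl fun y hy => ?_
      rw [hG j x hx y hy]
    have h2 : ∀ i : Fin m, (A * (1 - 1 / Q) + rr m Q A L / Q) * (∑ x ∈ P, w i x) ^ 2 ≤
        ∑ x ∈ P, ∑ y ∈ P, w i x * w i y * (A * (1 - 1 / Q) + G (j + 1) x y / Q) := by
      intro i
      have h3 := ih (j + 1) (w i) (hw0 i)
      have h4 : ∑ x ∈ P, ∑ y ∈ P, w i x * w i y * (A * (1 - 1 / Q) + G (j + 1) x y / Q) =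
          A * (1 - 1 / Q) * (∑ x ∈ P, w i x) ^ 2 +
            (∑ x ∈ P, ∑ y ∈ P, w i x * w i y * G (j + 1) x y) / Q := by
        rw [pow_two, Finset.sum_mul_sum, Finset.mul_sum, Finset.sum_div, ← Finset.sum_add_distrib]
        refine Finset.sum_congr rfl fun x _ => ?_
        rw [Finset.mul_sum, Finset.sum_div, ← Finset.sum_add_distrib]
        refine Finset.sum_congr rfl fun y _ => ?_
        ring
      rw [h4, add_mul]
      have h5 : rr m Q A L / Q * (∑ x ∈ P, w i x) ^ 2 =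
        (rr m Q A L * (∑ x ∈ P, w i x) ^ 2) / Q := by ring
      rw [h5]
      gcongr
    have h6 : ∑ i : Fin m, ∑ x ∈ P, w i x = ∑ x ∈ P, u x := by
      rw [Finset.sum_comm]
      refine Finset.sum_congr rfl fun x _ => ?_
      simp [hw]
    have h7 : (∑ x ∈ P, u x) ^ 2 ≤ m * ∑ i : Fin m, (∑ x ∈ P, w i x) ^ 2 := by
      rw [← h6]
      have := sq_sum_le_card_mul_sum_sq (s := (Finset.univ : Finset (Fin m)))
        (f := fun i => ∑ x ∈ P, w i x)
      simpa using this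
    rw [h1]
    calc rr m Q A (L + 1) * (∑ x ∈ P, u x) ^ 2
        = (A * (1 - 1 / Q) + rr m Q A L / Q) * ((∑ x ∈ P, u x) ^ 2 / m) := by
          rw [show rr m Q A (L + 1) = (A * (1 - 1 / Q) + rr m Q A L / Q) / m from rfl]
          ring
      _ ≤ (A * (1 - 1 / Q) + rr m Q A L / Q) * ∑ i : Fin m, (∑ x ∈ P, w i x) ^ 2 := by
          apply mul_le_mul_of_nonneg_left _ (add_nonneg hb (div_nonneg (hr0 L) hQ0.le))
          rw [div_le_iff₀ hm0]
          linarith
      _ = ∑ i : Fin m, (A * (1 - 1 / Q) + rr m Q A L / Q) * (∑ x ∈ P, w i x) ^ 2 := by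
          rw [Finset.mul_sum]
      _ ≤ _ := Finset.sum_le_sum fun i _ => h2 i

lemma rr_eq (m : ℕ) (Q A : ℝ) (hm : 1 ≤ m) (hQ : 2 ≤ Q) (L : ℕ) :
    rr m Q A L = A * (Q - 1) / (Q * m - 1) * (1 - (1 / (Q * m)) ^ L) := by
  have hm1 : (1 : ℝ) ≤ m := by exact_mod_cast hm
  have hQm : 2 ≤ Q * m := by nlinarith
  have h1 : Q * m - 1 ≠ 0 := by linarith
  have h2 : Q ≠ 0 := by linarith
  have h3 : (m : ℝ) ≠ 0 := by linarith
  induction L with
  | zero => simp [rr]
  | succ L ih =>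
    rw [show rr m Q A (L + 1) = (A * (1 - 1 / Q) + rr m Q A L / Q) / m from rfl, ih, pow_succ]
    field_simp
    ring

theorem eng : S_ENG.{u} := by
  intro α P m Q A cl G hm hQ hA h0 hG
  have hm1 : (1 : ℝ) ≤ m := by exact_mod_cast hm
  have hQm : 2 ≤ Q * m := by nlinarith
  have hS : ∀ L : ℕ, A * (Q - 1) / (Q * m - 1) * (1 - (1 / (Q * m)) ^ L) * (P.card : ℝ) ^ 2 ≤
      ∑ x ∈ P, ∑ y ∈ P, G 0 x y := by
    intro L
    have h := eng_aux P m Q A cl G hm hQ hA h0 hG L 0 (fun _ => 1) (fun _ => zero_le_one)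
    rw [← rr_eq m Q A hm hQ]
    simpa using h
  have hlim : Filter.Tendsto (fun L : ℕ => A * (Q - 1) / (Q * m - 1) *
      (1 - (1 / (Q * m)) ^ L) * (P.card : ℝ) ^ 2) Filter.atTop
      (nhds (A * (Q - 1) / (Q * m - 1) * (1 - 0) * (P.card : ℝ) ^ 2)) := by
    have h1 : Filter.Tendsto (fun L : ℕ => (1 / (Q * (m : ℝ))) ^ L) Filter.atTop (nhds 0) := by
      apply tendsto_pow_atTop_nhds_zero_of_lt_one
      · positivity
      · rw [div_lt_one (by linarith)]
        linarith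
    exact ((tendsto_const_nhds.sub h1).const_mul _).mul_const _
  rw [sub_zero, mul_one] at hlim
  exact le_of_tendsto' hlim hS

end Pool.Agent.P8H52.UI
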