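import Pool.Agent.P8H52.UI.Gen

/-!
# Project UI: place data of a function field over an algebraically closed field of characteristic `p`
-/

set_option autoImplicit false

namespace Pool.Agent.P8H52.UI

open Polynomial Pool.Agent.P8H29.UI

universe u

/-- a separating element -/
lemma exists_sep (k K : Type*) [Field k] [PerfectField k] [Field K] [Algebra k K]
    (hFG : (⊤ : IntermediateField k K).FG)
    (hx : ∃ x : K, Transcendental k x ∧ Algebra.IsAlgebraic (IntermediateField.adjoin k {x}) K) :
    ∃ t : K, Transcendental k t ∧ Algebra.IsSeparable (IntermediateField.adjoin k {t}) K ∧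
      FiniteDimensional (IntermediateField.adjoin k {t}) K := by
  obtain ⟨x, hxt, hxa⟩ := hx
  have hess : Algebra.EssFiniteType k K := IntermediateField.fg_top_iff.mp hFG
  obtain ⟨s, hs, hsep⟩ := exists_isTranscendenceBasis_and_isSeparable_of_perfectField k K
  have h1 : IsTranscendenceBasis k (fun _ : Unit => x) := by
    have hind : AlgebraicIndependent k (fun _ : Unit => x) :=
      algebraicIndependent_unique_type_iff.mpr hxt
    rw [hind.isTranscendenceBasis_iff_isAlgebraic, Set.range_const,
      ← IntermediateField.isAlgebraic_adjoin_iff_top]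
    exact hxa
  have h2 := hs.lift_cardinalMk_eq h1
  have h3 : s.card = 1 := by
    simpa using h2
  obtain ⟨t, rfl⟩ := Finset.card_eq_one.mp h3
  have ht : Transcendental k t := by
    have h4 := hs.1
    have := (algebraicIndependent_singleton_iff (⟨t, Finset.mem_singleton_self t⟩ :
      ({t} : Finset K))).mp h4
    exact this
  rw [Finset.coe_singleton] at hsep
  refine ⟨t, ht, hsep, ?_⟩
  have : Algebra.EssFiniteType (IntermediateField.adjoin k {t}) K := .of_comp k _ _
  exact Algebra.finite_of_essFiniteType_of_isAlgebraic (F := IntermediateField.adjoin k {t})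

theorem ex : S_EX.{u} := by
  intro p _ k K _ _ _ _ _ hFG hx
  obtain ⟨t, ht, hsep, hfin⟩ := exists_sep k K hFG hx
  let e : RatFunc k ≃ₐ[k] IntermediateField.adjoin k {t} :=
    RatFunc.algEquivOfTranscendental t ht
  let _ : Algebra (RatFunc k) K :=
    ((algebraMap (IntermediateField.adjoin k {t}) K).comp e.toRingEquiv.toRingHom).toAlgebra
  have htow : IsScalarTower k (RatFunc k) K := by
    apply IsScalarTower.of_algebraMap_eq
    intro c
    change _ = algebraMap (IntermediateField.adjoin k {t}) K (e (algebraMap k (RatFunc k) c))
    rw [e.commutes]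
    rfl
  have hc : (algebraMap (RatFunc k) K).comp (e.symm.toRingEquiv : _ ≃+* RatFunc k).toRingHom =
      (RingEquiv.refl K).toRingHom.comp (algebraMap (IntermediateField.adjoin k {t}) K) := by
    ext y
    change algebraMap (IntermediateField.adjoin k {t}) K (e (e.symm y)) = _
    rw [e.apply_symm_apply]
    rfl
  have h1 : Algebra.IsSeparable (RatFunc k) K :=
    Algebra.IsSeparable.of_equiv_equiv e.symm.toRingEquiv (RingEquiv.refl K) hc
  have h2 : FiniteDimensional (RatFunc k) K :=
    Module.Finite.of_equiv_equiv e.symm.toRingEquiv (RingEquiv.refl K) hc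
  exact exists_pc p k K

end Pool.Agent.P8H52.UI
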