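import Pool.Agent.P8H52.UI.Gen

/-!
# Project UI: place data of the rational function field in characteristic `p`
-/

set_option autoImplicit false

namespace Pool.Agent.P8H52.UI

open Polynomial Pool.Agent.W277.UB Pool.Agent.P8H29.UI

universe u

section Place

variable (k : Type*) [Field k] [IsAlgClosed k]

open Classical in
lemma rat_sum (x : RatFunc k) (hx : x ≠ 0) (T : Finset k)
    (hT : ∀ c, c ∉ T → x.num.rootMultiplicity c = 0 ∧ x.denom.rootMultiplicity c = 0) :
    ∑ c ∈ T, ordc c x = x.intDegree := by
  have key : ∀ p : k[X], p ≠ 0 → (∀ c, c ∉ T → p.rootMultiplicity c = 0) →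
      ∑ c ∈ T, p.rootMultiplicity c = p.natDegree := by
    intro p hp h
    have h1 : ∀ c ∈ p.roots, c ∈ T := by
      intro c hc
      by_contra hcT
      have h2 := h c hcT
      have h3 := (rootMultiplicity_pos hp).mpr ((mem_roots hp).mp hc)
      omega
    have h2 := Multiset.sum_count_eq_card h1
    simp only [count_roots] at h2
    rw [h2]
    exact (IsAlgClosed.splits p).natDegree_eq_card_roots.symm
  unfold ordc RatFunc.intDegree
  rw [Finset.sum_sub_distrib]
  have h1 := key x.num (RatFunc.num_ne_zero hx) fun c hc => (hT c hc).1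
  have h2 := key x.denom (RatFunc.denom_ne_zero x) fun c hc => (hT c hc).2
  rw [← h1, ← h2]
  push_cast
  rfl

lemma rat_fin (x : RatFunc k) (hx : x ≠ 0) : {v | ratOrd v x ≠ 0}.Finite := by
  classical
  have h1 : {v | ratOrd v x ≠ 0} ⊆
      ((insert none ((x.num.roots.toFinset ∪ x.denom.roots.toFinset).image some) :
        Finset (Option k)) : Set (Option k)) := by
    intro v hv
    cases v with
    | none => simp
    | some c =>
      simp only [Finset.coe_insert, Finset.coe_image, Set.mem_insert_iff, reduceCtorEq, false_or,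
        Set.mem_image, Finset.mem_coe, Finset.mem_union, Multiset.mem_toFinset,
        Option.some.injEq, exists_eq_right]
      by_contra hcon
      push Not at hcon
      apply hv
      simp only [ratOrd, ordc]
      have h2 : x.num.rootMultiplicity c = 0 := by
        by_contra h
        exact hcon.1 ((mem_roots (RatFunc.num_ne_zero hx)).mpr
          ((rootMultiplicity_pos (RatFunc.num_ne_zero hx)).mp (Nat.pos_of_ne_zero h)))
      have h3 : x.denom.rootMultiplicity c = 0 := by
        by_contra h
        exact hcon.2 ((mem_roots (RatFunc.denom_ne_zero x)).mpr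
          ((rootMultiplicity_pos (RatFunc.denom_ne_zero x)).mp (Nat.pos_of_ne_zero h)))
      rw [h2, h3]
      simp
  exact (Finset.finite_toSet _).subset h1

lemma rat_const (x : RatFunc k) (hx : x ≠ 0) (h : ∀ v, 0 ≤ ratOrd v x) :
    ∃ c : k, algebraMap k (RatFunc k) c = x := by
  have hm := RatFunc.denom_ne_zero x
  have hn := RatFunc.num_ne_zero hx
  have h1 : x.denom.natDegree = 0 := by
    by_contra hcon
    have h2 : x.denom.degree ≠ 0 := by
      intro h3
      exact hcon (natDegree_eq_zero_iff_degree_le_zero.mpr (le_of_eq h3))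
    obtain ⟨c, hc⟩ := IsAlgClosed.exists_root _ h2
    have h3 := h (some c)
    have h4 : 0 < x.denom.rootMultiplicity c := (rootMultiplicity_pos hm).mpr hc
    have h5 : x.num.IsRoot c := by
      rw [← rootMultiplicity_pos hn]
      simp only [ratOrd, ordc] at h3
      omega
    obtain ⟨u, w, huw⟩ := RatFunc.isCoprime_num_denom x
    have h6 := congrArg (eval c) huw
    rw [IsRoot.def] at hc h5
    simp [hc, h5] at h6
  have h2 : x.denom = 1 := (RatFunc.monic_denom x).natDegree_eq_zero.mp h1
  have h3 := h none
  simp only [ratOrd, RatFunc.intDegree, h1] at h3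
  have h4 : x.num.natDegree = 0 := by
    omega
  obtain ⟨c, hc⟩ := natDegree_eq_zero.mp h4
  refine ⟨c, ?_⟩
  rw [← RatFunc.num_div_denom x, h2, ← hc, map_one, div_one, RatFunc.algebraMap_C]
  rfl

lemma ratOrd_alg (v : Option k) (c : k) (hc : c ≠ 0) :
    ratOrd v (algebraMap k (RatFunc k) c) = 0 := by
  have h1 : algebraMap k (RatFunc k) c = algebraMap k[X] (RatFunc k) (C c) := by
    rw [RatFunc.algebraMap_C]
    rfl
  cases v with
  | none =>
    simp only [ratOrd]
    rw [h1, RatFunc.intDegree_polynomial, natDegree_C]
    simp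
  | some a =>
    have h2 := ordc_mk a (C c) 1 (C_ne_zero.mpr hc) one_ne_zero
    rw [map_one, div_one] at h2
    simp only [ratOrd]
    rw [h1, h2, rootMultiplicity_C, ← C_1, rootMultiplicity_C]
    simp

lemma rat_prod0 (x : RatFunc k) (hx : x ≠ 0) (S : Finset (Option k))
    (hS : ∀ v, v ∉ S → ratOrd v x = 0) : ∑ v ∈ S, ratOrd v x = 0 := by
  classical
  set T : Finset k := (x.num.roots.toFinset ∪ x.denom.roots.toFinset) ∪ S.eraseNone with hT
  have h0 : ∀ c, c ∉ T → x.num.rootMultiplicity c = 0 ∧ x.denom.rootMultiplicity c = 0 := by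
    intro c hc
    simp only [hT, Finset.mem_union, Multiset.mem_toFinset, not_or] at hc
    constructor
    · by_contra h
      exact hc.1.1 ((mem_roots (RatFunc.num_ne_zero hx)).mpr
        ((rootMultiplicity_pos (RatFunc.num_ne_zero hx)).mp (Nat.pos_of_ne_zero h)))
    · by_contra h
      exact hc.1.2 ((mem_roots (RatFunc.denom_ne_zero x)).mpr
        ((rootMultiplicity_pos (RatFunc.denom_ne_zero x)).mp (Nat.pos_of_ne_zero h)))
  have h1 := rat_sum k x hx T h0
  have h2 : ∑ v ∈ T.insertNone, ratOrd v x = 0 := by
    rw [Finset.sum_insertNone]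
    have h3 : ratOrd none x = - x.intDegree := rfl
    have h4 : ∑ c ∈ T, ratOrd (some c) x = ∑ c ∈ T, ordc c x := rfl
    rw [h3, h4, h1]
    ring
  have hST : S ⊆ T.insertNone := by
    intro v hv
    rw [Finset.mem_insertNone]
    intro c hc
    simp only [hT, Finset.mem_union, Finset.mem_eraseNone]
    right
    rw [Option.mem_def] at hc
    rwa [← hc]
  rw [Finset.sum_subset hST fun v _ hv => hS v hv, h2]

omit [IsAlgClosed k] in
lemma sub_const (x : RatFunc k) (hx : x ≠ 0) (h0 : x.intDegree = 0) :
    ∃ c : k, x - algebraMap k (RatFunc k) c = 0 ∨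
      (x - algebraMap k (RatFunc k) c).intDegree ≤ -1 := by
  obtain ⟨a, b, ha, hb, rfl⟩ := exists_mk' hx
  rw [intDegree_mk _ _ ha hb] at h0
  have hdeg : a.natDegree = b.natDegree := by omega
  have hb' := RatFunc.algebraMap_ne_zero (K := k) hb
  set c := a.leadingCoeff / b.leadingCoeff with hc
  have hlb : b.leadingCoeff ≠ 0 := leadingCoeff_ne_zero.mpr hb
  have hla : a.leadingCoeff ≠ 0 := leadingCoeff_ne_zero.mpr ha
  have hc0 : c ≠ 0 := div_ne_zero hla hlb
  refine ⟨c, ?_⟩
  have h1 : algebraMap k[X] (RatFunc k) a / algebraMap k[X] (RatFunc k) b -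
      algebraMap k (RatFunc k) c =
      algebraMap k[X] (RatFunc k) (a - C c * b) / algebraMap k[X] (RatFunc k) b := by
    have : algebraMap k (RatFunc k) c = algebraMap k[X] (RatFunc k) (C c) := by
      rw [RatFunc.algebraMap_C]; rfl
    rw [this, map_sub, map_mul, sub_div, mul_div_assoc, div_self hb', mul_one]
  rw [h1]
  by_cases h2 : a - C c * b = 0
  · left
    rw [h2, map_zero, zero_div]
  · right
    rw [intDegree_mk _ _ h2 hb]
    have h3 : (a - C c * b).degree < a.degree := by
      apply degree_sub_lt
      · rw [degree_C_mul hc0, degree_eq_natDegree ha, degree_eq_natDegree hb, hdeg]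
      · exact ha
      · rw [leadingCoeff_mul, leadingCoeff_C, hc, div_mul_cancel₀ _ hlb]
    have h4 := natDegree_lt_natDegree h2 h3
    omega

omit [IsAlgClosed k] in
lemma ratD_inf' (x : RatFunc k) (hx : x ≠ 0) (hD : ratD k x ≠ 0) (h : x.intDegree ≤ 0) :
    (ratD k x).intDegree ≤ -2 := by
  rcases lt_or_eq_of_le h with h1 | h1
  · have := ratD_ord_inf x hx hD
    omega
  · obtain ⟨c, hc⟩ := sub_const k x hx h1
    have h2 : ratD k (x - algebraMap k (RatFunc k) c) = ratD k x := by
      rw [← ratDer_apply, ← ratDer_apply, map_sub, Derivation.map_algebraMap, sub_zero]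
    have h3 : x - algebraMap k (RatFunc k) c ≠ 0 := by
      intro h4
      rw [h4] at h2
      apply hD
      rw [← h2, ← ratDer_apply, map_zero]
    have h5 := hc.resolve_left h3
    have h6 := ratD_ord_inf (x - algebraMap k (RatFunc k) c) h3 (by rw [h2]; exact hD)
    rw [h2] at h6
    omega

end Place

theorem rat : S_RAT.{u} := by
  intro p _ k _ _ _
  have hperf : PerfectRing k p := inferInstance
  refine ⟨{
    Pl := Option k
    ord := ratOrd
    wt := fun _ => 1
    wt_one := fun _ => le_rfl
    ord_mul := ?_
    ord_add := ?_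
    ord_alg := ratOrd_alg k
    fin := rat_fin k
    sum := ?_
    const := rat_const k
    D := ratDer k
    D_ker := fun x hx => ratD_root p k x hx
    ls := fun v => match v with
      | none => -2
      | some _ => 0
    lsS := {none}
    ls_supp := ?_
    T := -2
    ls_sum := ?_
    D_ord := ?_
    D_ord' := ?_ }, rfl⟩
  · intro v x y hx hy
    cases v with
    | none =>
      simp only [ratOrd, RatFunc.intDegree_mul hx hy]
      ring
    | some c => exact ordc_mul c x y hx hy
  · intro v x y m hx hy hxy h1 h2
    cases v with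
    | none =>
      simp only [ratOrd] at h1 h2 ⊢
      have h3 := RatFunc.intDegree_add_le hy hxy
      rcases le_max_iff.mp h3 with h4 | h4
      · linarith
      · linarith
    | some c => exact ordc_add c x y m hx hy hxy h1 h2
  · intro x hx S hS
    simp only [one_mul]
    exact rat_prod0 k x hx S hS
  · intro v hv
    cases v with
    | none => simp at hv
    | some c => rfl
  · simp
  · intro v x hx hD
    cases v with
    | none =>
      have := ratD_ord_inf x hx hD
      simp only [ratOrd, ratDer_apply]
      linarith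
    | some c =>
      have := ratD_ordc c x hx hD
      simp only [ratOrd, ratDer_apply]
      linarith
  · intro v x hx hD h
    cases v with
    | none =>
      simp only [ratOrd] at h
      have := ratD_inf' k x hx hD (by linarith)
      simp only [ratOrd, ratDer_apply]
      linarith
    | some c =>
      have := ratD_ordc' c x hx hD h
      simp only [ratOrd, ratDer_apply]
      linarith

end Pool.Agent.P8H52.UI
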