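import Pool.Agent.P8H29.UI.Stm

/-!
# Project UI: reduction to an algebraically closed field of constants
-/

set_option autoImplicit false

namespace Pool.Agent.P8H52.UI

open Polynomial Pool.Agent.P8H29.UI

universe u v

lemma mem_adj {k k' K L : Type*} [Field k] [Field k'] [Field K] [Field L] [Algebra k k']
    [Algebra k K] [Algebra k' L] (g : K →+* L)
    (hg : ∀ c : k, g (algebraMap k K c) = algebraMap k' L (algebraMap k k' c)) (s : Set K) (y : K)
    (hy : y ∈ IntermediateField.adjoin k s) : g y ∈ IntermediateField.adjoin k' (g '' s) := by
  have h1 : IntermediateField.adjoin k s ≤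
      ({ Subfield.comap g (IntermediateField.adjoin k' (g '' s)).toSubfield with
          algebraMap_mem' := by
            intro c
            change g (algebraMap k K c) ∈ IntermediateField.adjoin k' (g '' s)
            rw [hg]
            exact (IntermediateField.adjoin k' (g '' s)).algebraMap_mem _ } :
        IntermediateField k K) := by
    rw [IntermediateField.adjoin_le_iff]
    intro z hz
    exact IntermediateField.subset_adjoin k' (g '' s) ⟨z, hz, rfl⟩
  exact h1 hy

lemma not_alg (k : Type v) (K : Type u) [Field k] [Field K] [Algebra k K] (c : K)
    (hc : Transcendental k c) (a : algebraicClosure k (AlgebraicClosure K)) :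
    algebraMap _ (AlgebraicClosure K) a ≠ algebraMap K (AlgebraicClosure K) c := by
  intro h
  have h1 : IsAlgebraic k (algebraMap K (AlgebraicClosure K) c) := by
    rw [← h]
    exact mem_algebraicClosure_iff.mp a.2
  exact hc ((isAlgebraic_algebraMap_iff (algebraMap K (AlgebraicClosure K)).injective).mp h1)

lemma trans_clos (k : Type v) (K : Type u) [Field k] [Field K] [Algebra k K] (t : K)
    (ht : Transcendental k t) : Transcendental (algebraicClosure k (AlgebraicClosure K))
      (algebraMap K (AlgebraicClosure K) t) := by
  have h1 : Transcendental k (algebraMap K (AlgebraicClosure K) t) :=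
    (transcendental_algebraMap_iff (algebraMap K (AlgebraicClosure K)).injective).mpr ht
  exact h1.algebraicClosure

theorem red : S_EX.{u} → S_RAT.{u} → S_RED.{u, v} := by
  intro hEX hRAT p _ k K _ _ _ _ t ht hfin
  have hac : IsAlgClosed (algebraicClosure k (AlgebraicClosure K)) :=
    (algebraicClosure.isAlgClosure k (AlgebraicClosure K)).isAlgClosed
  have cK' : CharP (algebraicClosure k (AlgebraicClosure K)) p :=
    charP_of_injective_algebraMap
      (algebraMap k (algebraicClosure k (AlgebraicClosure K))).injective p
  have htc := trans_clos k K t ht
  have hcompat : ∀ c : k, algebraMap K (AlgebraicClosure K) (algebraMap k K c) =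
      algebraMap (algebraicClosure k (AlgebraicClosure K)) (AlgebraicClosure K)
        (algebraMap k (algebraicClosure k (AlgebraicClosure K)) c) := by
    intro c
    rw [← IsScalarTower.algebraMap_apply k K (AlgebraicClosure K),
      ← IsScalarTower.algebraMap_apply k (algebraicClosure k (AlgebraicClosure K))
        (AlgebraicClosure K)]
  by_cases htop : IntermediateField.adjoin k {t} = ⊤
  · have hmem : ∀ y : K, algebraMap K (AlgebraicClosure K) y ∈
        IntermediateField.adjoin (algebraicClosure k (AlgebraicClosure K))
          {algebraMap K (AlgebraicClosure K) t} := by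
      intro y
      have h1 := mem_adj (algebraMap K (AlgebraicClosure K)) hcompat {t} y (by
        rw [htop]; trivial)
      rwa [Set.image_singleton] at h1
    let e := RatFunc.algEquivOfTranscendental (K := algebraicClosure k (AlgebraicClosure K))
      (algebraMap K (AlgebraicClosure K) t) htc
    obtain ⟨Q, hQ⟩ := hRAT p (algebraicClosure k (AlgebraicClosure K))
    refine ⟨algebraicClosure k (AlgebraicClosure K),
      RatFunc (algebraicClosure k (AlgebraicClosure K)), inferInstance, hac, cK',
      inferInstance, inferInstance, Q,
      e.symm.toRingEquiv.toRingHom.comp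
        (RingHom.codRestrict (algebraMap K (AlgebraicClosure K)) _ hmem), ?_, fun _ => hQ⟩
    intro c hc a h
    apply not_alg k K c hc a
    have h1 := congrArg (fun z => ((e z : IntermediateField.adjoin
      (algebraicClosure k (AlgebraicClosure K)) {algebraMap K (AlgebraicClosure K) t}) :
        AlgebraicClosure K)) h
    simp only [e.commutes] at h1
    have h2 : e ((e.symm.toRingEquiv.toRingHom.comp
        (RingHom.codRestrict (algebraMap K (AlgebraicClosure K)) _ hmem)) c) =
        (RingHom.codRestrict (algebraMap K (AlgebraicClosure K)) _ hmem) c :=
      e.apply_symm_apply _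
    rw [h2] at h1
    exact h1
  · have e1 : Algebra.EssFiniteType k (IntermediateField.adjoin k {t}) :=
      IntermediateField.essFiniteType_iff.mpr ⟨{t}, by simp⟩
    have e2 : Algebra.EssFiniteType k K := .comp k (IntermediateField.adjoin k {t}) K
    obtain ⟨s, hs⟩ := IntermediateField.fg_top k K
    set K1 := IntermediateField.adjoin (algebraicClosure k (AlgebraicClosure K))
      (algebraMap K (AlgebraicClosure K) '' (s : Set K)) with hK1
    have hmem : ∀ y : K, algebraMap K (AlgebraicClosure K) y ∈ K1 := by
      intro y
      exact mem_adj (algebraMap K (AlgebraicClosure K)) hcompat s y (by rw [hs]; trivial)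
    let j : K →+* K1 := RingHom.codRestrict (algebraMap K (AlgebraicClosure K)) K1 hmem
    have hj : ∀ y, ((j y : K1) : AlgebraicClosure K) = algebraMap K (AlgebraicClosure K) y :=
      fun _ => rfl
    have hFG : (⊤ : IntermediateField (algebraicClosure k (AlgebraicClosure K)) K1).FG := by
      rw [IntermediateField.fg_top_iff, IntermediateField.essFiniteType_iff]
      classical
      exact ⟨s.image (algebraMap K (AlgebraicClosure K)), by rw [Finset.coe_image]⟩
    have htr : Transcendental (algebraicClosure k (AlgebraicClosure K)) (j t) := by
      rw [← transcendental_algebraMap_iff (A := AlgebraicClosure K)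
        (algebraMap K1 (AlgebraicClosure K)).injective]
      exact htc
    have halg : Algebra.IsAlgebraic
        (IntermediateField.adjoin (algebraicClosure k (AlgebraicClosure K)) {j t}) K1 := by
      have a1 : Algebra.IsAlgebraic (IntermediateField.adjoin k {t}) K := inferInstance
      have a2 : Algebra.IsAlgebraic (IntermediateField.adjoin k {t}) (AlgebraicClosure K) :=
        Algebra.IsAlgebraic.trans (IntermediateField.adjoin k {t}) K (AlgebraicClosure K)
      have hmem2 : ∀ y : IntermediateField.adjoin k {t},
          (j.comp (algebraMap (IntermediateField.adjoin k {t}) K)) y ∈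
          IntermediateField.adjoin (algebraicClosure k (AlgebraicClosure K)) {j t} := by
        intro y
        have h1 := mem_adj (k' := algebraicClosure k (AlgebraicClosure K)) j (by
          intro c
          apply Subtype.ext
          rw [hj, hcompat]
          rfl) {t} (y : K) y.2
        rwa [Set.image_singleton] at h1
      let ψ : IntermediateField.adjoin k {t} →+*
          IntermediateField.adjoin (algebraicClosure k (AlgebraicClosure K)) {j t} :=
        RingHom.codRestrict (j.comp (algebraMap (IntermediateField.adjoin k {t}) K)) _ hmem2
      refine ⟨fun z => ?_⟩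
      obtain ⟨q, hq0, hq⟩ := a2.isAlgebraic (z : AlgebraicClosure K)
      refine ⟨q.map ψ, (Polynomial.map_ne_zero_iff ψ.injective).mpr hq0, ?_⟩
      apply (algebraMap K1 (AlgebraicClosure K)).injective
      rw [map_zero, aeval_def, eval₂_map, hom_eval₂]
      exact hq
    obtain ⟨Q⟩ := hEX p (algebraicClosure k (AlgebraicClosure K)) K1 hFG ⟨j t, htr, halg⟩
    refine ⟨algebraicClosure k (AlgebraicClosure K), K1, inferInstance, hac, cK',
      inferInstance, inferInstance, Q, j, ?_, fun h => absurd h htop⟩
    intro c hc a h
    apply not_alg k K c hc a
    exact congrArg (fun z : K1 => (z : AlgebraicClosure K)) h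

end Pool.Agent.P8H52.UI
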