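import Mathlib

/-!
# Project UI: extension of derivations to separable extensions, and `p`-th roots
-/

set_option autoImplicit false

namespace Pool.Agent.P8H52.UI

open Polynomial

section Ext

variable (k F K : Type*) [Field k] [Field F] [Field K] [Algebra k F] [Algebra k K] [Algebra F K]
  [IsScalarTower k F K] [Algebra.IsSeparable F K]

open scoped TensorProduct in
/-- a derivation extends to a separable extension -/
lemma exists_ext (d : Derivation k F F) : ∃ D : Derivation k K K,
    ∀ x, D (algebraMap F K x) = algebraMap F K (d x) := by
  have : Algebra.FormallyEtale F K := Algebra.FormallyEtale.of_isSeparable F K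
  let l : Ω[F⁄k] →ₗ[F] K := (Algebra.linearMap F K) ∘ₗ d.liftKaehlerDifferential
  let m : Ω[K⁄k] →ₗ[K] K := (l.liftBaseChange K) ∘ₗ
    (KaehlerDifferential.tensorKaehlerEquivOfFormallyEtale k F K).symm.toLinearMap
  refine ⟨m.compDer (KaehlerDifferential.D k K), fun x => ?_⟩
  change m (KaehlerDifferential.D k K (algebraMap F K x)) = _
  change (l.liftBaseChange K)
    ((KaehlerDifferential.tensorKaehlerEquivOfFormallyEtale k F K).symm
      (KaehlerDifferential.D k K (algebraMap F K x))) = _
  rw [KaehlerDifferential.tensorKaehlerEquivOfFormallyEtale_symm_D_algebraMap,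
    LinearMap.liftBaseChange_tmul, one_smul]
  change algebraMap F K (d.liftKaehlerDifferential (KaehlerDifferential.D k F x)) = _
  rw [Derivation.liftKaehlerDifferential_comp_D]

end Ext

section Root

/-- if the coefficients of the minimal polynomial are `p`-th powers, so is the element -/
lemma exists_root (p : ℕ) [Fact p.Prime] (F K : Type*) [Field F] [Field K] [Algebra F K]
    [FiniteDimensional F K] [CharP F p] (x : K)
    (h : ∀ n, ∃ b : F, b ^ p = (minpoly F x).coeff n) : ∃ y : K, y ^ p = x := by
  have hp : p.Prime := Fact.out
  have cK : CharP K p := charP_of_injective_algebraMap (algebraMap F K).injective p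
  have cO : CharP (AlgebraicClosure K) p :=
    charP_of_injective_algebraMap (algebraMap K (AlgebraicClosure K)).injective p
  obtain ⟨q, hq⟩ : ∃ q : F[X], q.map (frobenius F p) = minpoly F x := by
    have : minpoly F x ∈ lifts (frobenius F p) := by
      rw [lifts_iff_coeff_lifts]
      intro n
      obtain ⟨b, hb⟩ := h n
      exact ⟨b, hb⟩
    exact this
  have hint : IsIntegral F x := Algebra.IsIntegral.isIntegral x
  have hdeg : q.natDegree = (minpoly F x).natDegree := by
    rw [← hq, natDegree_map]
  have hq0 : q ≠ 0 := by
    rintro rfl
    rw [Polynomial.map_zero] at hq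
    exact minpoly.ne_zero hint hq.symm
  obtain ⟨y, hy⟩ := IsAlgClosed.exists_pow_nat_eq (algebraMap K (AlgebraicClosure K) x) hp.pos
  set x' := algebraMap K (AlgebraicClosure K) x with hx'
  have hroot : aeval y q = 0 := by
    have h1 : (aeval y q) ^ p = 0 := by
      have h2 := hom_eval₂ q (algebraMap F (AlgebraicClosure K))
        (frobenius (AlgebraicClosure K) p) y
      have h3 : (frobenius (AlgebraicClosure K) p).comp (algebraMap F (AlgebraicClosure K)) =
          (algebraMap F (AlgebraicClosure K)).comp (frobenius F p) := by
        ext a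
        simp [frobenius_def]
      rw [h3, ← eval₂_map, hq, frobenius_def, frobenius_def, hy] at h2
      rw [aeval_def, h2, ← aeval_def, hx', aeval_algebraMap_apply, minpoly.aeval, map_zero]
    exact pow_eq_zero_iff hp.ne_zero |>.mp h1
  have hinty : IsIntegral F y := (isAlgebraic_iff_isIntegral).mp ⟨q, hq0, hroot⟩
  have hintx' : IsIntegral F x' := hint.algebraMap
  have hle : IntermediateField.adjoin F {x'} ≤ IntermediateField.adjoin F {y} := by
    rw [IntermediateField.adjoin_simple_le_iff, ← hy]
    exact pow_mem (IntermediateField.mem_adjoin_simple_self F y) p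
  have : FiniteDimensional F (IntermediateField.adjoin F {y}) :=
    IntermediateField.adjoin.finiteDimensional hinty
  have hfin : Module.finrank F (IntermediateField.adjoin F {y}) ≤
      Module.finrank F (IntermediateField.adjoin F {x'}) := by
    rw [IntermediateField.adjoin.finrank hinty, IntermediateField.adjoin.finrank hintx', hx',
      minpoly.algebraMap_eq (algebraMap K (AlgebraicClosure K)).injective, ← hdeg]
    exact natDegree_le_of_dvd (minpoly.dvd F y hroot) hq0
  have heq := IntermediateField.eq_of_le_of_finrank_le hle hfin
  have hyx : y ∈ IntermediateField.adjoin F {x'} := by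
    rw [heq]
    exact IntermediateField.mem_adjoin_simple_self F y
  have hle2 : IntermediateField.adjoin F {x'} ≤
      (IsScalarTower.toAlgHom F K (AlgebraicClosure K)).fieldRange := by
    rw [IntermediateField.adjoin_simple_le_iff]
    exact ⟨x, rfl⟩
  obtain ⟨y', hy'⟩ := hle2 hyx
  refine ⟨y', (algebraMap K (AlgebraicClosure K)).injective ?_⟩
  have h5 : algebraMap K (AlgebraicClosure K) y' = y := hy'
  rw [map_pow, h5, hy]

end Root

section Ker

/-- the coefficients of the minimal polynomial of a constant are constants -/
lemma coeff_const (F K : Type*) [Field F] [Field K] [Algebra F K] [FiniteDimensional F K]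
    (d : Derivation ℤ F F) (D : Derivation ℤ K K)
    (hD : ∀ x, D (algebraMap F K x) = algebraMap F K (d x)) (x : K) (hx : D x = 0) (n : ℕ) :
    d ((minpoly F x).coeff n) = 0 := by
  let _ : Differential F := ⟨d⟩
  let _ : Differential K := ⟨D⟩
  have : DifferentialAlgebra F K := ⟨hD⟩
  set q := minpoly F x with hq
  have hint : IsIntegral F x := Algebra.IsIntegral.isIntegral x
  have hpm : q.Monic := minpoly.monic hint
  have h3 := Differential.deriv_aeval_eq x q
  have h4 : aeval x q = 0 := minpoly.aeval _ _
  rw [h4] at h3
  have h6 : aeval x (Differential.mapCoeffs q) = 0 := by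
    have h7 : D (0 : K) = aeval x (Differential.mapCoeffs q) + aeval x (derivative q) * D x := h3
    rw [hx, mul_zero, add_zero, map_zero] at h7
    exact h7.symm
  have hco : ∀ n, (Differential.mapCoeffs q).coeff n = d (q.coeff n) := fun n => rfl
  have h7 : Differential.mapCoeffs q = 0 := by
    by_contra hne
    have h8 := minpoly.degree_le_of_ne_zero F x hne h6
    have h9 : (Differential.mapCoeffs q).degree < q.degree := by
      rw [degree_eq_natDegree hpm.ne_zero, degree_lt_iff_coeff_zero]
      intro m hm
      rw [hco]
      rcases eq_or_lt_of_le hm with h | h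
      · rw [← h, coeff_natDegree, hpm.leadingCoeff]
        exact d.map_one_eq_zero
      · rw [coeff_eq_zero_of_natDegree_lt h]
        exact d.map_zero
    exact absurd h8 (not_le.mpr h9)
  rw [← hco, h7, coeff_zero]

lemma coeff_const' (k F K : Type*) [Field k] [Field F] [Field K] [Algebra k F] [Algebra k K]
    [Algebra F K] [FiniteDimensional F K] (d : Derivation k F F) (D : Derivation k K K)
    (hD : ∀ x, D (algebraMap F K x) = algebraMap F K (d x)) (x : K) (hx : D x = 0) (n : ℕ) :
    d ((minpoly F x).coeff n) = 0 :=
  coeff_const F K (d.restrictScalars ℤ) (D.restrictScalars ℤ) hD x hx n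

end Ker

end Pool.Agent.P8H52.UI
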