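import Pool.Agent.P8H29.UI.Stm
import Pool.Agent.P8H52.UI.Der
import Pool.Agent.W277.UB.Gen

/-!
# Project UI: place data of a separable extension of `k(t)`, `k` algebraically closed of
characteristic `p`
-/

set_option autoImplicit false

namespace Pool.Agent.P8H52.UI

open Polynomial Pool.Agent.W277.UB Pool.Agent.P8H29.UI

universe u

section Root

variable (p : ℕ) [Fact p.Prime] (k : Type*) [Field k] [CharP k p] [PerfectRing k p]

/-- the elements of `k(t)` with derivative zero are `p`-th powers -/
lemma ratD_root (x : RatFunc k) (hx : ratD k x = 0) : ∃ y : RatFunc k, y ^ p = x := by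
  have hp : p.Prime := Fact.out
  set a := x.num with ha
  set b := x.denom with hb
  have hb0 : b ≠ 0 := RatFunc.denom_ne_zero x
  have hb' := RatFunc.algebraMap_ne_zero hb0
  have hxab : x = algebraMap k[X] (RatFunc k) a / algebraMap k[X] (RatFunc k) b :=
    (RatFunc.num_div_denom x).symm
  have h1 : algebraMap k[X] (RatFunc k) (a * b ^ (p - 1)) =
      x * algebraMap k[X] (RatFunc k) (b ^ p) := by
    rw [hxab, div_mul_eq_mul_div, eq_div_iff hb', ← map_mul, ← map_mul]
    congr 1
    rw [mul_assoc, ← pow_succ, Nat.sub_add_cancel hp.one_le]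
  have h2 : derivative (b ^ p) = 0 := by
    rw [derivative_pow, CharP.cast_eq_zero k p]
    simp
  have h3 : derivative (a * b ^ (p - 1)) = 0 := by
    have h4 := congrArg (ratD k) h1
    rw [ratD_mul, ratD_alg, ratD_alg, hx, h2, map_zero, mul_zero, mul_zero, add_zero] at h4
    exact (map_eq_zero_iff _ (RatFunc.algebraMap_injective k)).mp h4
  have h5 := expand_contract p h3 hp.ne_zero
  rw [polynomial_expand_eq] at h5
  refine ⟨algebraMap k[X] (RatFunc k)
    ((contract p (a * b ^ (p - 1))).map (frobeniusEquiv k p).symm) /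
      algebraMap k[X] (RatFunc k) b, ?_⟩
  rw [div_pow, ← map_pow, h5, ← map_pow, h1, mul_div_assoc, div_self, mul_one]
  exact RatFunc.algebraMap_ne_zero (pow_ne_zero _ hb0)

end Root

section Gen

variable (p : ℕ) [Fact p.Prime] (k K : Type u) [Field k] [IsAlgClosed k] [CharP k p] [Field K]
  [Algebra k K] [Algebra (RatFunc k) K] [IsScalarTower k (RatFunc k) K]
  [FiniteDimensional (RatFunc k) K] [Algebra.IsSeparable (RatFunc k) K]

theorem exists_pc : Nonempty (PC.{u, u, u} p k K) := by
  classical
  have cF : CharP (RatFunc k) p :=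
    charP_of_injective_algebraMap (algebraMap k (RatFunc k)).injective p
  have hperf : PerfectRing k p := inferInstance
  obtain ⟨D, hD⟩ := exists_ext k (RatFunc k) K (ratDer k)
  set d : Derivation ℤ K K := D.restrictScalars ℤ with hd
  have hdD : ∀ x, d x = D x := fun _ => rfl
  have halg : ∀ x : K, IsAlgebraic k x → ∃ c : k, algebraMap k K c = x := by
    intro x hx
    have h1 : (minpoly k x).degree = 1 :=
      IsAlgClosed.degree_eq_one_of_irreducible k (minpoly.irreducible hx.isIntegral)
    exact minpoly.mem_range_of_degree_eq_one k x h1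
  obtain ⟨c1⟩ := exists_chartData k[X] (RatFunc k) K (fun x => x.intDegree) d (addFn_poly k)
    (pos_poly k) (by
      intro r
      refine ⟨derivative r, ?_⟩
      rw [hdD, hD, ratDer_apply, ratD_alg])
  obtain ⟨c2⟩ := exists_chartData (InfRing k) (RatFunc k) K (fun x => -x.intDegree) d (addFn_inf k)
    (pos_inf k) (by
      intro r
      refine ⟨⟨_, ratD_inf k r⟩, ?_⟩
      rw [hdD, hD]
      rfl)
  have hconst : ∀ x : K, x ≠ 0 → (∀ v, 0 ≤ c1.ord v x) → (∀ v, 0 ≤ c2.ord v x) →
      ∃ c : k, algebraMap k K c = x := by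
    intro x hx h1 h2
    apply halg
    apply alg_of_coeff k K x (Algebra.IsIntegral.isIntegral x)
    intro n
    apply const_of_both k
    · exact c1.integral x hx h1 n
    · obtain ⟨r, hr⟩ := c2.integral x hx h2 n
      rw [← hr]
      exact r.2
  let ord : c1.Pl ⊕ c2.Pl → K → ℤ := Sum.elim c1.ord c2.ord
  let wt : c1.Pl ⊕ c2.Pl → ℤ := Sum.elim c1.wt c2.wt
  let ls : c1.Pl ⊕ c2.Pl → ℤ := Sum.elim c1.dl c2.dl
  let lsS : Finset (c1.Pl ⊕ c2.Pl) := c1.dl_fin.toFinset.disjSum c2.dl_fin.toFinset
  exact ⟨{
    Pl := c1.Pl ⊕ c2.Pl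
    ord := ord
    wt := wt
    wt_one := by
      rintro (v | v)
      · exact c1.wt_one v
      · exact c2.wt_one v
    ord_mul := by
      rintro (v | v) x y hx hy
      · exact c1.ord_mul v x y hx hy
      · exact c2.ord_mul v x y hx hy
    ord_add := by
      rintro (v | v) x y m hx hy hxy h1 h2
      · exact c1.ord_add v x y m hx hy hxy h1 h2
      · exact c2.ord_add v x y m hx hy hxy h1 h2
    ord_alg := by
      rintro (v | v) c hc
      · have h1 := c1.ord_unit v (C c) (isUnit_C.mpr (isUnit_iff_ne_zero.mpr hc))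
        rw [IsScalarTower.algebraMap_apply k (RatFunc k) K]
        rw [RatFunc.algebraMap_C] at h1
        exact h1
      · obtain ⟨u, hu, hu'⟩ := isUnit_inf k c hc
        have h1 := c2.ord_unit v u hu
        rw [ValuationSubring.algebraMap_apply, hu', ← IsScalarTower.algebraMap_apply] at h1
        exact h1
    fin := by
      intro x hx
      have h1 : {v | ord v x ≠ 0} ⊆
          Sum.inl '' {v | c1.ord v x ≠ 0} ∪ Sum.inr '' {v | c2.ord v x ≠ 0} := by
        rintro (v | v) hv
        · left
          exact ⟨v, hv, rfl⟩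
        · right
          exact ⟨v, hv, rfl⟩
      exact (((c1.fin x hx).image _).union ((c2.fin x hx).image _)).subset h1
    sum := by
      intro x hx S hS
      have h1 := c1.sum x hx S.toLeft (fun v hv => hS (Sum.inl v) (by
        rwa [Finset.mem_toLeft] at hv))
      have h2 := c2.sum x hx S.toRight (fun v hv => hS (Sum.inr v) (by
        rwa [Finset.mem_toRight] at hv))
      have h3 : ∑ v ∈ S.toLeft.disjSum S.toRight, wt v * ord v x = 0 := by
        rw [Finset.sum_disjSum]
        have h4 : ∑ v ∈ S.toLeft, wt (Sum.inl v) * ord (Sum.inl v) x =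
          ∑ v ∈ S.toLeft, c1.wt v * c1.ord v x := rfl
        have h5 : ∑ v ∈ S.toRight, wt (Sum.inr v) * ord (Sum.inr v) x =
          ∑ v ∈ S.toRight, c2.wt v * c2.ord v x := rfl
        rw [h4, h5, h1, h2]
        ring
      rwa [Finset.toLeft_disjSum_toRight] at h3
    const := by
      intro x hx h
      exact hconst x hx (fun v => h (Sum.inl v)) (fun v => h (Sum.inr v))
    D := D
    D_ker := by
      intro x hx
      apply exists_root p (RatFunc k) K x
      intro n
      apply ratD_root p k
      exact coeff_const' k (RatFunc k) K (ratDer k) D hD x hx n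
    ls := ls
    lsS := lsS
    ls_supp := by
      rintro (v | v) hv
      · simp only [lsS, Finset.inl_mem_disjSum, Set.Finite.mem_toFinset, Set.mem_ofPred_eq,
          not_not] at hv
        simp [ls, hv]
      · simp only [lsS, Finset.inr_mem_disjSum, Set.Finite.mem_toFinset, Set.mem_ofPred_eq,
          not_not] at hv
        simp [ls, hv]
    T := ∑ v ∈ lsS, wt v * ls v
    ls_sum := rfl
    D_ord := by
      rintro (v | v) x hx h1
      · exact (c1.deriv v x hx h1).1
      · exact (c2.deriv v x hx h1).1
    D_ord' := by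
      rintro (v | v) x hx h1 h2
      · exact (c1.deriv v x hx h1).2 h2
      · exact (c2.deriv v x hx h1).2 h2 }⟩

end Gen

end Pool.Agent.P8H52.UI
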